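import Pool.Agent.N436.DF.Stm

/-!
# Project DF, part 6 (helper897): potential of the kill system and the savings inequalities
-/

namespace Pool.Agent.N897.DF.KillRho

open Finset Pool.Agent.N436.DF

variable {V : Type} [DecidableEq V]

omit [DecidableEq V] in
lemma sum_split (X : Finset V) (f : V → Bool) (g : V → ℤ) :
    ∑ x ∈ X, g x = (∑ x ∈ X with f x = true, g x) + ∑ x ∈ X with f x = false, g x := by
  rw [← Finset.sum_filter_add_sum_filter_not X (fun x => f x = true)]
  congr 1
  refine Finset.sum_congr ?_ fun _ _ => rfl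
  ext x
  simp

omit [DecidableEq V] in
lemma r_nn {P : Par} {H : Hub V} (h : Ok P H) (u v : V) : 0 ≤ H.r u v := by
  rcases h.r01 u v with h | h <;> rw [h] <;> norm_num

omit [DecidableEq V] in
lemma nr_nn {P : Par} {H : Hub V} (h : Ok P H) (X : Finset V) (f : V → Bool) (i : Bool) (v : V) :
    0 ≤ nr H X f i v := Finset.sum_nonneg fun _ _ => r_nn h _ _

omit [DecidableEq V] in
lemma pr_nn {P : Par} {H : Hub V} (h : Ok P H) (X : Finset V) (f : V → Bool) (i : Bool) (v : V) :
    0 ≤ pr H X f i v := Finset.sum_nonneg fun _ _ => h.m_nn _ _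

omit [DecidableEq V] in
lemma sum_ew (P : Par) (H : Hub V) (X : Finset V) (f : V → Bool) (v : V) :
    ∑ x ∈ X, ew P H x v = P.D * (nr H X f true v + nr H X f false v) +
      P.a * (pr H X f true v + pr H X f false v) := by
  have h1 := sum_split X f (fun x => H.r x v)
  have h2 := sum_split X f (fun x => H.m x v)
  unfold ew nr pr
  rw [← h1, ← h2, Finset.sum_add_distrib, Finset.mul_sum, Finset.mul_sum]

lemma kc1 (H : Hub V) (X : Finset V) (f : V → Bool) (v : V) :
    (kill H X f).c true v = if 0 < nr H X f true v then -1 else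
      max (-1) (H.c true v - pr H X f false v) := rfl

lemma kc2 (H : Hub V) (X : Finset V) (f : V → Bool) (v : V) :
    (kill H X f).c false v = if 0 < nr H X f false v then -1 else
      max (-1) (H.c false v - pr H X f true v) := rfl

lemma kill_ok {P : Par} {H : Hub V} (h : Ok P H) (X : Finset V) (f : V → Bool) :
    Ok P (kill H X f) where
  c_ge i v := by
    unfold kill
    simp only
    split_ifs
    · exact le_refl _
    · exact le_max_left _ _
  c1_le v := by
    rw [kc1]
    have h1 := h.c1_le v
    have h2 := pr_nn h X f false v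
    have h3 := P.hj
    split_ifs
    · omega
    · exact max_le (by omega) (by omega)
  c2_le v := by
    rw [kc2]
    have h1 := h.c2_le v
    have h2 := pr_nn h X f true v
    have h3 := P.hj
    have h4 := P.hjk
    split_ifs
    · omega
    · exact max_le (by omega) (by omega)
  r01 := h.r01
  rsymm := h.rsymm
  r0 := h.r0
  m_nn := h.m_nn
  msymm := h.msymm
  m0 := h.m0

lemma sav_eq (P : Par) (H : Hub V) (X : Finset V) (f : V → Bool) (v : V) :
    sav P H X f v = P.D * (nr H X f true v + nr H X f false v) +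
      P.a * (pr H X f true v + pr H X f false v) -
      P.a * (H.c true v - (kill H X f).c true v) -
      P.b * (H.c false v - (kill H X f).c false v) := by
  unfold sav wt
  rw [sum_ew P H X f v]
  ring

lemma ineq1 {P : Par} {H : Hub V} (h : Ok P H) (X : Finset V) (f : V → Bool) (v : V) :
    P.a * (H.c true v - (kill H X f).c true v) ≤
      (P.D - P.d) * nr H X f true v + P.a * pr H X f false v := by
  have ha : 0 < P.a := by have := P.hab; have := P.hb; have := P.hd; omega
  have hDd : 0 ≤ P.D - P.d := by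
    have := P.hDa; have := P.hab; have := P.hb; omega
  have hp := pr_nn h X f false v
  have hn := nr_nn h X f true v
  rw [kc1]
  split_ifs with h1
  · have h2 := h.c1_le v
    have h3 : P.a * (H.c true v - -1) ≤ P.a * (P.j + 1) :=
      mul_le_mul_of_nonneg_left (by omega) ha.le
    rw [P.hD1] at h3
    have h4 : (P.D - P.d) * 1 ≤ (P.D - P.d) * nr H X f true v :=
      mul_le_mul_of_nonneg_left (by omega) hDd
    have h5 : 0 ≤ P.a * pr H X f false v := mul_nonneg ha.le hp
    linarith
  · have h2 : nr H X f true v = 0 := by omega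
    rw [h2, mul_zero, zero_add]
    refine mul_le_mul_of_nonneg_left ?_ ha.le
    have := le_max_right (-1) (H.c true v - pr H X f false v)
    omega

lemma ineq1' {P : Par} {H : Hub V} (h : Ok P H) (X : Finset V) (f : V → Bool) (v : V)
    (h1 : 1 ≤ nr H X f true v) :
    P.a * (H.c true v - (kill H X f).c true v) ≤ P.D - P.d := by
  have ha : 0 < P.a := by have := P.hab; have := P.hb; have := P.hd; omega
  rw [kc1, if_pos (by omega)]
  have h2 := h.c1_le v
  have h3 : P.a * (H.c true v - -1) ≤ P.a * (P.j + 1) :=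
    mul_le_mul_of_nonneg_left (by omega) ha.le
  rwa [P.hD1] at h3

lemma ineq2 {P : Par} {H : Hub V} (h : Ok P H) (X : Finset V) (f : V → Bool) (v : V) :
    P.b * (H.c false v - (kill H X f).c false v) ≤
      P.D * nr H X f false v + P.b * pr H X f true v := by
  have hb : 0 < P.b := by have := P.hb; omega
  have hD : 0 ≤ P.D := by
    have := P.hDa; have := P.hab; have := P.hb; have := P.hd; omega
  have hp := pr_nn h X f true v
  have hn := nr_nn h X f false v
  rw [kc2]
  split_ifs with h1
  · have h2 := h.c2_le v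
    have h3 : P.b * (H.c false v - -1) ≤ P.b * (P.k + 1) :=
      mul_le_mul_of_nonneg_left (by omega) hb.le
    rw [P.hD2] at h3
    have h4 : P.D * 1 ≤ P.D * nr H X f false v :=
      mul_le_mul_of_nonneg_left (by omega) hD
    have h5 : 0 ≤ P.b * pr H X f true v := mul_nonneg hb.le hp
    linarith
  · have h2 : nr H X f false v = 0 := by omega
    rw [h2, mul_zero, zero_add]
    refine mul_le_mul_of_nonneg_left ?_ hb.le
    have := le_max_right (-1) (H.c false v - pr H X f true v)
    omega

lemma rho_eq {P : Par} {H : Hub V} (h : Ok P H) (X : Finset V) (f : V → Bool) (Y : Finset V)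
    (hd : Disjoint Y X) :
    rho P (kill H X f) Y = rho P H (Y ∪ X) - rho P H X + 2 * ∑ v ∈ Y, sav P H X f v := by
  have hs : ∀ u v, ew P H u v = ew P H v u := by
    intro u v
    unfold ew
    rw [h.rsymm, h.msymm]
  have e1 : ∀ u v, ew P (kill H X f) u v = ew P H u v := fun _ _ => rfl
  have e2 : ∑ u ∈ Y, ∑ v ∈ X, ew P H u v = ∑ v ∈ Y, ∑ x ∈ X, ew P H x v :=
    Finset.sum_congr rfl fun u _ => Finset.sum_congr rfl fun v _ => hs u v
  have e3 : ∑ u ∈ X, ∑ v ∈ Y, ew P H u v = ∑ v ∈ Y, ∑ x ∈ X, ew P H x v := Finset.sum_comm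
  have e4 : ∑ v ∈ Y, sav P H X f v = ∑ v ∈ Y, ∑ x ∈ X, ew P H x v -
      (∑ v ∈ Y, wt P H v - ∑ v ∈ Y, wt P (kill H X f) v) := by
    unfold sav
    rw [Finset.sum_sub_distrib, Finset.sum_sub_distrib]
  have e5 : ∑ u ∈ Y ∪ X, ∑ v ∈ Y ∪ X, ew P H u v =
      ∑ u ∈ Y, ∑ v ∈ Y, ew P H u v + 2 * ∑ v ∈ Y, ∑ x ∈ X, ew P H x v +
        ∑ u ∈ X, ∑ v ∈ X, ew P H u v := by
    rw [Finset.sum_union hd]
    simp only [Finset.sum_union hd]
    rw [Finset.sum_add_distrib, Finset.sum_add_distrib, e2, e3]
    ring
  unfold rho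
  simp only [e1]
  rw [e5, e4, Finset.sum_union hd]
  ring

theorem killRho : S_killRho := by
  intro V _ P H X f h
  have ha : 0 < P.a := by have := P.hab; have := P.hb; have := P.hd; omega
  have hDd : 0 ≤ P.D - P.d := by
    have := P.hDa; have := P.hab; have := P.hb; omega
  have hD : 0 ≤ P.D := by
    have := P.hd; omega
  have hd0 : 0 ≤ P.d := by have := P.hd; omega
  have hb : P.b = P.a - P.d := by have := P.hab; omega
  have key : ∀ v, P.d * t1 H X f v ≤ sav P H X f v := by
    intro v
    have h1 := ineq1 h X f v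
    have h2 := ineq2 h X f v
    rw [sav_eq]
    unfold t1
    rw [hb] at h2 ⊢
    linarith
  refine ⟨kill_ok h X f, fun Y hd => rho_eq h X f Y hd, fun v => ?_, key, fun v hv => ?_,
    fun v hv => ?_, fun v hv hv' => ?_⟩
  · have n1 := nr_nn h X f true v
    have n2 := nr_nn h X f false v
    have p1 := pr_nn h X f true v
    have p2 := pr_nn h X f false v
    have t : 0 ≤ t1 H X f v := by unfold t1; omega
    exact ⟨n1, n2, p1, p2, t, (mul_nonneg hd0 t).trans (key v)⟩
  · have h1 := ineq1' h X f v hv
    have h2 := ineq2 h X f v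
    have h3 : 0 ≤ (P.D - P.d) * (nr H X f true v - 1) := mul_nonneg hDd (by omega)
    rw [sav_eq]
    unfold t1
    rw [hb] at h2 ⊢
    linarith
  · have h1 := ineq1' h X f v hv
    have h2 := ineq2 h X f v
    have h3 : 0 ≤ P.a * pr H X f false v := mul_nonneg ha.le (pr_nn h X f false v)
    rw [sav_eq]
    unfold t1
    rw [hb] at h2 ⊢
    linarith
  · have h1 := ineq1 h X f v
    have h2 : (kill H X f).c false v = -1 := by
      rw [kc2, if_pos (by omega)]
    have h3 : 0 ≤ P.a * pr H X f true v := mul_nonneg ha.le (pr_nn h X f true v)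
    have h4 : 0 ≤ P.d * nr H X f true v := mul_nonneg hd0 (nr_nn h X f true v)
    have h5 : 0 ≤ P.D * (nr H X f false v - 1) := mul_nonneg hD (by omega)
    rw [sav_eq, h2, hv]
    linarith

end Pool.Agent.N897.DF.KillRho
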